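import Mathlib
import Pool.Agent.W3.RadCount

/-!
The number of positive integers `R ≤ X` which are the radical of some abc triple, of any height,
is at most `C X (log log X) ^ 5 / log X`.
-/

namespace Pool.Agent.Results.MP_2ec8a3_nt.FewRadicals

theorem result : ∃ C : ℝ, ∀ X : ℕ, 3 ≤ X →
    ({R : ℕ | R ≤ X ∧ ∃ a b c : ℕ, 0 < a ∧ 0 < b ∧ a + b = c ∧ Nat.Coprime a b ∧
      ∏ p ∈ (a * b * c).primeFactors, p = R}.ncard : ℝ) ≤
      C * X * Real.log (Real.log X) ^ 5 / Real.log X := by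
  obtain ⟨C, -, h⟩ := Pool.Agent.W3.RadCount.all
  refine ⟨C, fun X hX => le_trans (le_of_eq ?_) (h X hX)⟩
  congr 2
  ext n
  simp only [Set.mem_ofPred_eq, Pool.Agent.H374R2.Z.IsRad, Pool.Agent.H374R2.Z.rad]
  constructor
  · rintro ⟨h1, a, b, c, ha, hb, rfl, hg, hr⟩
    exact ⟨h1, a, b, ha, hb, hg, hr⟩
  · rintro ⟨h1, a, b, ha, hb, hg, hr⟩
    exact ⟨h1, a, b, a + b, ha, hb, rfl, hg, hr⟩

end Pool.Agent.Results.MP_2ec8a3_nt.FewRadicals
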