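import Pool.Agent.W347.RA.CNT
import Pool.Agent.W12.RA.CEL
import Pool.Agent.W88.RA.GP1
import Pool.Agent.W693.RA.GAP
import Pool.Agent.W786.RC.RC

/-! Radicals of abc triples that are products of four factors `≥ X ^ ε`: a power saving without
effective height restriction. -/

namespace Pool.Agent.Results.MP_2ec8a3_nt.FourFactorRadicals

theorem result : ∀ ε δ η : ℝ, 0 < ε → 0 < δ → 0 < η → ∃ C : ℝ, ∀ X : ℝ, 1 ≤ X →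
    (({R : ℕ | (R : ℝ) ≤ X ∧ (∃ s₁ s₂ s₃ s₄ : ℕ, R = s₁ * s₂ * s₃ * s₄ ∧ X ^ ε ≤ (s₁ : ℝ) ∧
        X ^ ε ≤ (s₂ : ℝ) ∧ X ^ ε ≤ (s₃ : ℝ) ∧ X ^ ε ≤ (s₄ : ℝ)) ∧
      ∃ a b c : ℕ, 0 < a ∧ 0 < b ∧ Nat.Coprime a b ∧ a + b = c ∧
        ∏ p ∈ (a * b * c).primeFactors, p = R ∧ Real.log (Real.log c) ≤ X ^ δ}.ncard : ℕ) : ℝ) ≤
      C * X ^ (1 - ε + δ + η) :=
  Pool.Agent.W786.RC.tRC (Pool.Agent.W693.RA.GAP.tGAP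
    (Pool.Agent.W12.RA.tCEL Pool.Agent.W347.RACNT.tCNT) Pool.Agent.W88.RA.tGP1)

end Pool.Agent.Results.MP_2ec8a3_nt.FourFactorRadicals
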