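import Mathlib
import Pool.Agent.H705R2.ABC.Main

namespace Pool.Agent.Results.MP_2ec8a3_nt.RadicalAspect

open Pool.Agent.H785R2.ABC (IsABCTriple rad)

/-- the radical: product of the distinct primes dividing `n` -/
def radical (n : ℕ) : ℕ := ∏ p ∈ n.primeFactors, p

/-- the triples `(a, b, c)` of positive integers with `a + b = c`, `gcd (a, b) = 1` and
`rad (abc) ≤ X`, `rad (abc) ^ (10/9) ≤ c ≤ X ^ k` -/
def Bad (k X : ℕ) : Set (ℕ × ℕ × ℕ) :=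
  {t | 0 < t.1 ∧ 0 < t.2.1 ∧ Nat.Coprime t.1 t.2.1 ∧ t.1 + t.2.1 = t.2.2 ∧
    radical (t.1 * t.2.1 * t.2.2) ≤ X ∧
    radical (t.1 * t.2.1 * t.2.2) ^ 10 ≤ t.2.2 ^ 9 ∧ t.2.2 ≤ X ^ k}

/-- auxiliary set: `c ≤ X ^ T` and `rad ≤ c ^ lam` -/
def S (T lam : ℝ) (X : ℕ) : Set (ℕ × ℕ × ℕ) :=
  {t | IsABCTriple t.1 t.2.1 t.2.2 ∧ (t.2.2 : ℝ) ≤ (X : ℝ) ^ T ∧
    (rad (t.1 * t.2.1 * t.2.2) : ℝ) ≤ (t.2.2 : ℝ) ^ lam}

/-- auxiliary set: `c ≤ X ^ T`, `rad ≤ X` and `rad ≤ c ^ (9/10)` -/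
def P (T : ℝ) (X : ℕ) : Set (ℕ × ℕ × ℕ) :=
  {t | IsABCTriple t.1 t.2.1 t.2.2 ∧ (t.2.2 : ℝ) ≤ (X : ℝ) ^ T ∧
    rad (t.1 * t.2.1 * t.2.2) ≤ X ∧
    (rad (t.1 * t.2.1 * t.2.2) : ℝ) ≤ (t.2.2 : ℝ) ^ (9 / 10 : ℝ)}

theorem fin_aux (Z : Set (ℕ × ℕ × ℕ)) (N : ℕ)
    (h : ∀ t ∈ Z, IsABCTriple t.1 t.2.1 t.2.2 ∧ t.2.2 ≤ N) : Z.Finite := by
  refine Set.Finite.subset (Finset.finite_toSet
      ((Finset.range (N + 1)) ×ˢ (Finset.range (N + 1)) ×ˢ (Finset.range (N + 1)))) ?_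
  rintro ⟨a, b, c⟩ ht
  obtain ⟨⟨h1, h2, h3, h4, h5⟩, h6⟩ := h _ ht
  simp only at h1 h2 h4 h6
  simp only [Finset.coe_product, Set.mem_prod, Finset.coe_range, Set.mem_Iio]
  omega

theorem S_fin (T lam : ℝ) (X : ℕ) : (S T lam X).Finite := by
  refine fin_aux _ ⌊(X : ℝ) ^ T⌋₊ ?_
  rintro t ⟨h1, h2, h3⟩
  exact ⟨h1, Nat.le_floor h2⟩

theorem P_fin (T : ℝ) (X : ℕ) : (P T X).Finite := by
  refine fin_aux _ ⌊(X : ℝ) ^ T⌋₊ ?_
  rintro t ⟨h1, h2, h3⟩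
  exact ⟨h1, Nat.le_floor h2⟩

theorem S_card (ε t : ℝ) (hε : 0 < ε) (ht : 10 / 9 ≤ t) : ∃ C : ℝ, 0 ≤ C ∧ ∀ X : ℕ, 1 ≤ X →
    ((S (t + ε / 2) (1 / t) X).ncard : ℝ) ≤ C * (X : ℝ) ^ (4 / 7 + ε : ℝ) := by
  have ht0 : 0 < t := by linarith
  have hlam : 1 / t ≤ 9 / 10 := by
    rw [div_le_div_iff₀ ht0 (by norm_num)]
    linarith
  have hd : 0 < t + ε / 2 := by linarith
  obtain ⟨C, hC⟩ := Pool.Agent.H705R2.ABC.main (1 / t) (by positivity) hlam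
    (ε / (2 * (t + ε / 2))) (by positivity)
  refine ⟨|C|, abs_nonneg C, fun X hX => ?_⟩
  have hX1 : (1 : ℝ) ≤ X := by exact_mod_cast hX
  have hX0 : (0 : ℝ) < X := by linarith
  set N : ℕ := ⌊(X : ℝ) ^ (t + ε / 2)⌋₊ with hN
  have hN1 : 1 ≤ N := Nat.le_floor (by
    rw [Nat.cast_one]
    exact Real.one_le_rpow hX1 hd.le)
  have hNX : (N : ℝ) ≤ (X : ℝ) ^ (t + ε / 2) := Nat.floor_le (by positivity)
  have h1 := hC N hN1
  have hset : S (t + ε / 2) (1 / t) X = {u : ℕ × ℕ × ℕ | IsABCTriple u.1 u.2.1 u.2.2 ∧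
      u.2.2 ≤ N ∧ (rad (u.1 * u.2.1 * u.2.2) : ℝ) ≤ (u.2.2 : ℝ) ^ (1 / t)} := by
    ext u
    constructor
    · rintro ⟨a1, a2, a3⟩
      exact ⟨a1, Nat.le_floor a2, a3⟩
    · rintro ⟨a1, a2, a3⟩
      refine ⟨a1, le_trans ?_ hNX, a3⟩
      exact_mod_cast a2
  rw [hset]
  refine h1.trans ?_
  have he : 0 ≤ 4 * (1 / t) / 7 + ε / (2 * (t + ε / 2)) := by positivity
  have h2 : (N : ℝ) ^ (4 * (1 / t) / 7 + ε / (2 * (t + ε / 2))) ≤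
      ((X : ℝ) ^ (t + ε / 2)) ^ (4 * (1 / t) / 7 + ε / (2 * (t + ε / 2))) :=
    Real.rpow_le_rpow (Nat.cast_nonneg _) hNX he
  rw [← Real.rpow_mul hX0.le] at h2
  have h3 : (t + ε / 2) * (4 * (1 / t) / 7 + ε / (2 * (t + ε / 2))) ≤ 4 / 7 + ε := by
    have e1 : (t + ε / 2) * (4 * (1 / t) / 7 + ε / (2 * (t + ε / 2))) =
        4 / 7 + (2 * ε / 7) * (1 / t) + ε / 2 := by
      field_simp
      ring
    rw [e1]
    have e2 : (2 * ε / 7) * (1 / t) ≤ (2 * ε / 7) * (9 / 10) :=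
      mul_le_mul_of_nonneg_left hlam (by positivity)
    linarith
  have h4 : (X : ℝ) ^ ((t + ε / 2) * (4 * (1 / t) / 7 + ε / (2 * (t + ε / 2)))) ≤
      (X : ℝ) ^ (4 / 7 + ε : ℝ) := Real.rpow_le_rpow_of_exponent_le hX1 h3
  have h5 : 0 ≤ (N : ℝ) ^ (4 * (1 / t) / 7 + ε / (2 * (t + ε / 2))) := by positivity
  calc C * (N : ℝ) ^ (4 * (1 / t) / 7 + ε / (2 * (t + ε / 2)))
      ≤ |C| * (N : ℝ) ^ (4 * (1 / t) / 7 + ε / (2 * (t + ε / 2))) :=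
        mul_le_mul_of_nonneg_right (le_abs_self C) h5
    _ ≤ |C| * (X : ℝ) ^ (4 / 7 + ε : ℝ) :=
        mul_le_mul_of_nonneg_left (h2.trans h4) (abs_nonneg C)

theorem P_card (ε : ℝ) (hε : 0 < ε) (J : ℕ) : ∃ C : ℝ, 0 ≤ C ∧ ∀ X : ℕ, 1 ≤ X →
    ((P (10 / 9 + J * (ε / 2)) X).ncard : ℝ) ≤ C * (X : ℝ) ^ (4 / 7 + ε : ℝ) := by
  induction J with
  | zero =>
    obtain ⟨C, hC0, hC⟩ := S_card ε (10 / 9) hε le_rfl
    refine ⟨C, hC0, fun X hX => le_trans ?_ (hC X hX)⟩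
    have hX1 : (1 : ℝ) ≤ X := by exact_mod_cast hX
    have hsub : P (10 / 9 + (0 : ℕ) * (ε / 2)) X ⊆ S (10 / 9 + ε / 2) (1 / (10 / 9)) X := by
      rintro t ⟨h1, h2, h3, h4⟩
      refine ⟨h1, h2.trans (Real.rpow_le_rpow_of_exponent_le hX1 ?_), ?_⟩
      · rw [Nat.cast_zero, zero_mul]
        linarith
      · have h5 : (1 / (10 / 9) : ℝ) = 9 / 10 := by norm_num
        rw [h5]
        exact h4
    exact_mod_cast Set.ncard_le_ncard hsub (S_fin _ _ _)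
  | succ J ih =>
    obtain ⟨C, hC0, hC⟩ := ih
    have ht : (10 / 9 : ℝ) ≤ 10 / 9 + J * (ε / 2) := by
      have : 0 ≤ (J : ℝ) * (ε / 2) := by positivity
      linarith
    obtain ⟨C', hC0', hC'⟩ := S_card ε (10 / 9 + J * (ε / 2)) hε ht
    refine ⟨C + C', by positivity, fun X hX => ?_⟩
    have hX1 : (1 : ℝ) ≤ X := by exact_mod_cast hX
    have hX0 : (0 : ℝ) < X := by linarith
    set t : ℝ := 10 / 9 + J * (ε / 2) with htdef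
    have ht0 : 0 < t := by linarith
    have hsub : P (10 / 9 + ((J + 1 : ℕ) : ℝ) * (ε / 2)) X ⊆ P t X ∪ S (t + ε / 2) (1 / t) X := by
      rintro u ⟨h1, h2, h3, h4⟩
      rcases le_or_gt ((u.2.2 : ℝ)) ((X : ℝ) ^ t) with h | h
      · exact Or.inl ⟨h1, h, h3, h4⟩
      · right
        refine ⟨h1, h2.trans (le_of_eq ?_), ?_⟩
        · congr 1
          rw [htdef]
          push_cast
          ring
        · have h5 : ((rad (u.1 * u.2.1 * u.2.2) : ℕ) : ℝ) ≤ X := by exact_mod_cast h3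
          refine h5.trans ?_
          have h6 : ((X : ℝ) ^ t) ^ (1 / t) ≤ (u.2.2 : ℝ) ^ (1 / t) :=
            Real.rpow_le_rpow (by positivity) h.le (by positivity)
          rw [← Real.rpow_mul hX0.le, mul_one_div_cancel ht0.ne', Real.rpow_one] at h6
          exact h6
    have h7 : ((P (10 / 9 + ((J + 1 : ℕ) : ℝ) * (ε / 2)) X).ncard : ℝ) ≤
        ((P t X).ncard : ℝ) + ((S (t + ε / 2) (1 / t) X).ncard : ℝ) := by
      have := (Set.ncard_le_ncard hsub ((P_fin _ _).union (S_fin _ _ _))).trans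
        (Set.ncard_union_le _ _)
      exact_mod_cast this
    refine h7.trans ?_
    rw [add_mul]
    exact add_le_add (hC X hX) (hC' X hX)

/-- For every `k` and every `ε > 0` there is a constant `C` such that for every `X ≥ 1` there are at
most `C * X ^ (4 / 7 + ε)` abc-triples with `rad (abc) ≤ X` and
`rad (abc) ^ (10 / 9) ≤ c ≤ X ^ k`. -/
theorem result (k : ℕ) (ε : ℝ) (hε : 0 < ε) :
    ∃ C : ℝ, ∀ X : ℕ, 1 ≤ X →
      (Bad k X).Finite ∧ ((Bad k X).ncard : ℝ) ≤ C * (X : ℝ) ^ (4 / 7 + ε : ℝ) := by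
  obtain ⟨J, hJ⟩ := exists_nat_ge ((k : ℝ) / (ε / 2))
  obtain ⟨C, hC0, hC⟩ := P_card ε hε J
  refine ⟨C, fun X hX => ?_⟩
  have hX1 : (1 : ℝ) ≤ X := by exact_mod_cast hX
  have hsub : Bad k X ⊆ P (10 / 9 + J * (ε / 2)) X := by
    rintro ⟨a, b, c⟩ ⟨ha, hb, hab, habc, hr, hr2, hc⟩
    simp only at ha hb hab habc hr hr2 hc
    subst habc
    refine ⟨⟨ha, hb, Nat.add_pos_left ha b, rfl, hab, ?_, ?_⟩, ?_, hr, ?_⟩
    · simpa using hab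
    · simpa using hab.symm
    · show ((a + b : ℕ) : ℝ) ≤ (X : ℝ) ^ (10 / 9 + (J : ℝ) * (ε / 2))
      have h1 : ((a + b : ℕ) : ℝ) ≤ (X : ℝ) ^ k := by exact_mod_cast hc
      refine h1.trans ?_
      rw [← Real.rpow_natCast]
      refine Real.rpow_le_rpow_of_exponent_le hX1 ?_
      rw [div_le_iff₀ (by positivity)] at hJ
      linarith
    · show (radical (a * b * (a + b)) : ℝ) ≤ ((a + b : ℕ) : ℝ) ^ (9 / 10 : ℝ)
      have h0 : (0 : ℝ) ≤ (radical (a * b * (a + b)) : ℝ) := Nat.cast_nonneg _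
      have hc0 : (0 : ℝ) ≤ ((a + b : ℕ) : ℝ) := Nat.cast_nonneg _
      have hr' : (radical (a * b * (a + b)) : ℝ) ^ 10 ≤ ((a + b : ℕ) : ℝ) ^ 9 := by
        exact_mod_cast hr2
      have h2 : (((a + b : ℕ) : ℝ) ^ (9 / 10 : ℝ)) ^ 10 = ((a + b : ℕ) : ℝ) ^ 9 := by
        rw [← Real.rpow_natCast, ← Real.rpow_mul hc0, ← Real.rpow_natCast]
        norm_num
      rw [← h2] at hr'
      exact le_of_pow_le_pow_left₀ (by norm_num) (by positivity) hr'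
  refine ⟨(P_fin _ _).subset hsub, ?_⟩
  have h4 : ((Bad k X).ncard : ℝ) ≤ ((P (10 / 9 + J * (ε / 2)) X).ncard : ℝ) := by
    exact_mod_cast Set.ncard_le_ncard hsub (P_fin _ _)
  exact h4.trans (hC X hX)

end Pool.Agent.Results.MP_2ec8a3_nt.RadicalAspect
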