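import Pool.Agent.W4.QD.All3
import Pool.Agent.W4.QD.Weak

/-!
Oesterlé's inequality `c < rad(abc)^M` for the abc-triples that consist of values of binary forms
whose product has irreducible factors of degree at least three: bounds for the number of exceptions.
-/

set_option autoImplicit false

namespace Pool.Agent.Results.MP_2ec8a3_nt.ValuesOfForms

open Finset Polynomial

/-- the value at `(u, v)` of the binary form of degree `n` attached to the polynomial `f` -/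
def form (f : ℤ[X]) (n : ℕ) (u v : ℤ) : ℤ := ∑ j ∈ range (n + 1), f.coeff j * u ^ j * v ^ (n - j)

/-- the pairs `(u, v)`, `|u|, |v| ≤ X`, for which `x = F(u, v)`, `y = G(u, v)` and `z = x + y` are
nonzero, `x` and `y` are coprime, and the abc-triple formed by `|x|, |y|, |z|` satisfies
`rad(abc) ^ M ≤ k c` (`c` is the largest of the three numbers) -/
def Exceptional (F G : ℤ[X]) (d : ℕ) (M k : ℝ) (X : ℕ) : Set (ℤ × ℤ) :=
  {q | |q.1| ≤ (X : ℤ) ∧ |q.2| ≤ (X : ℤ) ∧ IsCoprime (form F d q.1 q.2) (form G d q.1 q.2) ∧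
    form F d q.1 q.2 * form G d q.1 q.2 * (form F d q.1 q.2 + form G d q.1 q.2) ≠ 0 ∧
    ((∏ p ∈ (form F d q.1 q.2 * form G d q.1 q.2 *
      (form F d q.1 q.2 + form G d q.1 q.2)).natAbs.primeFactors, p : ℕ) : ℝ) ^ M ≤
      k * max (max |((form F d q.1 q.2 : ℤ) : ℝ)| |((form G d q.1 q.2 : ℤ) : ℝ)|)
        |((form F d q.1 q.2 + form G d q.1 q.2 : ℤ) : ℝ)|}

/-- the exponent: `Y ^ (exponent n lam + ε)` bounds the number of pairs up to `Y` where an irreducible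
form of degree `n` has a value of radical at most `Y ^ lam` -/
noncomputable def exponent (n : ℕ) (lam : ℝ) : ℝ :=
  min (((n : ℝ) ^ 2 + 2 * n - 2) / (n * (2 * n - 1)) * lam)
    (max (lam - (n - 1) * (n - 2) / (2 * n - 1)) ((lam + n * (n - 1)) / (4 * n - 3)))

/-- Let `F, G` be integral binary forms of degree `d` and `g_1, …, g_r`, `r ≥ 1`, different factors
of `F G (F + G)`, irreducible over `ℚ`, of degrees `n_j ≥ 3`. Let `M > 0`, `0 ≤ λ_j ≤ n_j - 2` with
`λ_1 + ⋯ + λ_r ≥ d / M` and `exponent n_j λ_j ≤ E` for all `j`. For all `k, ε > 0` there is `C` such that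
for every `X ≥ 1` there are at most `C X ^ (E + ε)` pairs `(u, v)`, `|u|, |v| ≤ X`, with `F(u, v)`,
`G(u, v)` coprime and nonzero, `F(u, v) + G(u, v) ≠ 0`, for which the abc-triple formed by these three
numbers has `rad(abc) ^ M ≤ k c`. -/
theorem result (F G : ℤ[X]) (d : ℕ) (hd : 1 ≤ d) (hF : F.natDegree ≤ d) (hG : G.natDegree ≤ d)
    (r : ℕ) (hr : 1 ≤ r) (g : Fin r → ℤ[X])
    (hg : ∀ j, Irreducible ((g j).map (Int.castRingHom ℚ)) ∧ 3 ≤ (g j).natDegree)
    (hgD : ∀ j, (g j).map (Int.castRingHom ℚ) ∣ (F * G * (F + G)).map (Int.castRingHom ℚ))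
    (hgg : ∀ i j, i ≠ j → ¬ (g i).map (Int.castRingHom ℚ) ∣ (g j).map (Int.castRingHom ℚ))
    (M k E ε : ℝ) (hM : 0 < M) (hk : 0 < k) (hε : 0 < ε) (lam : Fin r → ℝ)
    (hl : ∀ j, 0 ≤ lam j ∧ lam j ≤ ((g j).natDegree : ℝ) - 2) (hL : d / M ≤ ∑ j, lam j)
    (hE : ∀ j, exponent (g j).natDegree (lam j) ≤ E) :
    ∃ C : ℝ, ∀ X : ℕ, 1 ≤ X → (Exceptional F G d M k X).Finite ∧
      ((Exceptional F G d M k X).ncard : ℝ) ≤ C * (X : ℝ) ^ (E + ε) :=
  Pool.Agent.W4.QD.abc_count Pool.Agent.W4.QD.hTRF Pool.Agent.W4.QD.hHF Pool.Agent.W4.QD.hPRD F G d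
    hd hF hG r hr g hg hgD hgg M k E ε hM hk hε lam hl hL hE

end Pool.Agent.Results.MP_2ec8a3_nt.ValuesOfForms
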